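import Pool.Agent.MHP.Stmts

/-!
# MHP, row CIS
-/

set_option autoImplicit false

namespace Pool.Agent.MHP.H45

open Pool.Agent.MHP

theorem comp_conn (A : PG) : ∀ v (h : A.G.Reachable A.r v),
    A.comp.G.Reachable A.comp.r ⟨v, h⟩ := by
  intro v h
  have h' := (SimpleGraph.reachable_iff_reflTransGen A.r v).1 h
  induction h' with
  | refl => exact SimpleGraph.Reachable.refl _
  | @tail b c hb hbc ih =>
    have hb' : A.G.Reachable A.r b := (SimpleGraph.reachable_iff_reflTransGen A.r b).2 hb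
    refine (ih hb').trans (SimpleGraph.Adj.reachable ?_)
    show A.G.Adj b c
    exact hbc

theorem cis : CisStmt := by
  refine ⟨fun A => ⟨SimpleGraph.Iso.refl, rfl⟩, ?_, ?_, ?_, ?_, ?_, ?_⟩
  · rintro A B ⟨φ, hφ⟩
    refine ⟨φ.symm, ?_⟩
    rw [← hφ]
    exact φ.symm_apply_apply A.r
  · rintro A B C ⟨φ, hφ⟩ ⟨ψ, hψ⟩
    refine ⟨φ.trans ψ, ?_⟩
    show ψ (φ A.r) = C.r
    rw [hφ, hψ]
  · rintro A B ⟨φ, hφ⟩
    have h : ∀ v, A.G.Reachable A.r v ↔ B.G.Reachable B.r (φ v) := by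
      intro v
      rw [← hφ]
      exact φ.reachable_iff.symm
    refine ⟨⟨φ.toEquiv.subtypeEquiv h, ?_⟩, ?_⟩
    · intro a b
      exact φ.map_adj_iff
    · exact Subtype.ext hφ
  · intro A hA
    refine ⟨⟨Equiv.subtypeUnivEquiv fun v => hA.preconnected A.r v, ?_⟩, rfl⟩
    intro a b
    exact Iff.rfl
  · intro A
    have : Nonempty A.comp.V := ⟨A.comp.r⟩
    refine ⟨fun a b => ?_⟩
    exact (comp_conn A a.1 a.2).symm.trans (comp_conn A b.1 b.2)
  · rintro A B ⟨φ, hφ⟩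
    exact Nat.card_congr φ.mapEdgeSet

end Pool.Agent.MHP.H45
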